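import Pool.Agent.H56.CF.Targets

/-!
# Complete family, AKN: the ideals of norm `n` and the roots
-/

set_option autoImplicit false

open NumberField Module
open scoped nonZeroDivisors

namespace Pool.Agent.H56.CF

open Pool.Agent.H24.Cls

theorem pf_AKN (hH : T_HNF) : T_AKN := by
  classical
  intro K _ _ hK n hn
  obtain ⟨Q, hQ⟩ := exists_quad K hK
  have hex : ∀ I : Ideal (𝓞 K), ∃ (e A : ℕ) (b : ℤ), I ≠ ⊥ → (1 ≤ e ∧ 1 ≤ A ∧
      Ideal.absNorm I = e ^ 2 * A ∧ (A : ℤ) ∣ b ^ 2 + Q.t * b + Q.n ∧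
      ∀ x y : ℤ, (x : 𝓞 K) + y * Q.w ∈ I ↔
        ∃ x' y' : ℤ, x = e * x' ∧ y = e * y' ∧ (A : ℤ) ∣ x' - y' * b) := by
    intro I
    by_cases hI : I = ⊥
    · exact ⟨0, 0, 0, fun h => absurd hI h⟩
    · obtain ⟨e, A, b, h⟩ := hH K Q I hI
      exact ⟨e, A, b, fun _ => h⟩
  choose e A b h using hex
  have hne : ∀ I : Ideal (𝓞 K), Ideal.absNorm I = n → I ≠ ⊥ := by
    rintro I hI rfl
    rw [Ideal.absNorm_bot] at hI
    omega
  let φ : Ideal (𝓞 K) → (Σ _ : ℕ, ℕ) := fun I =>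
    ⟨e I, ((2 * b I + Q.t) % (2 * (A I : ℤ))).toNat⟩
  let T : Finset (Σ _ : ℕ, ℕ) := ((Finset.Icc 1 n).filter (fun e => e ^ 2 ∣ n)).sigma
    (fun e => (Finset.range (2 * (n / e ^ 2))).filter fun B : ℕ =>
      (4 * ((n / e ^ 2 : ℕ) : ℤ)) ∣ (B : ℤ) ^ 2 - discr K)
  have hT : T.card = ∑ e ∈ (Finset.Icc 1 n).filter (fun e => e ^ 2 ∣ n),
      rts (n / e ^ 2) (discr K) := by
    rw [Finset.card_sigma]
    rfl
  have hA : ∀ I : Ideal (𝓞 K), Ideal.absNorm I = n → n / e I ^ 2 = A I := by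
    intro I hI
    obtain ⟨h1, h2, h3, -, -⟩ := h I (hne I hI)
    rw [← hI, h3]
    exact Nat.mul_div_cancel_left _ (by positivity)
  rw [← hT, ← Set.ncard_coe_finset]
  unfold aK
  refine Set.ncard_le_ncard_of_injOn φ ?_ ?_ (Finset.finite_toSet T)
  · intro I hI
    have hI' : Ideal.absNorm I = n := hI
    obtain ⟨h1, h2, h3, h4, -⟩ := h I (hne I hI')
    have hAI := hA I hI'
    have hA0 : (0 : ℤ) < 2 * (A I : ℤ) := by positivity
    have hm0 := Int.emod_nonneg (2 * b I + Q.t) hA0.ne'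
    have hm1 := Int.emod_lt_of_pos (2 * b I + Q.t) hA0
    rw [Finset.mem_coe, Finset.mem_sigma, Finset.mem_filter, Finset.mem_Icc, Finset.mem_filter,
      Finset.mem_range]
    show ((1 ≤ e I ∧ e I ≤ n) ∧ e I ^ 2 ∣ n) ∧ ((2 * b I + Q.t) % (2 * (A I : ℤ))).toNat <
      2 * (n / e I ^ 2) ∧ (4 * ((n / e I ^ 2 : ℕ) : ℤ)) ∣
        (((2 * b I + Q.t) % (2 * (A I : ℤ))).toNat : ℤ) ^ 2 - discr K
    rw [hAI, Int.toNat_of_nonneg hm0]
    refine ⟨⟨⟨h1, ?_⟩, ⟨A I, hI'.symm.trans h3⟩⟩, ?_, ?_⟩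
    · have h5 : e I ∣ n := (dvd_pow_self _ (by norm_num)).trans ⟨A I, hI'.symm.trans h3⟩
      exact Nat.le_of_dvd (by omega) h5
    · omega
    · obtain ⟨c, hc⟩ := h4
      obtain ⟨s, hs⟩ : ∃ s : ℤ, (2 * b I + Q.t) % (2 * (A I : ℤ)) =
          2 * b I + Q.t - 2 * (A I : ℤ) * s :=
        ⟨(2 * b I + Q.t) / (2 * (A I : ℤ)), by
          have := Int.emod_add_mul_ediv (2 * b I + Q.t) (2 * (A I : ℤ))
          linarith⟩
      rw [hs, ← hQ]
      unfold Quad.D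
      refine ⟨c - (2 * b I + Q.t) * s + (A I : ℤ) * s ^ 2, ?_⟩
      linear_combination 4 * hc
  · intro I hI J hJ hIJ
    have hI' : Ideal.absNorm I = n := hI
    have hJ' : Ideal.absNorm J = n := hJ
    obtain ⟨h1, h2, h3, -, h5⟩ := h I (hne I hI')
    obtain ⟨k1, k2, k3, -, k5⟩ := h J (hne J hJ')
    have he : e I = e J := congrArg Sigma.fst hIJ
    have hB : ((2 * b I + Q.t) % (2 * (A I : ℤ))).toNat =
        ((2 * b J + Q.t) % (2 * (A J : ℤ))).toNat := by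
      have := hIJ
      simp only [φ, Sigma.mk.injEq] at this
      exact eq_of_heq this.2
    have hAA : A I = A J := by rw [← hA I hI', ← hA J hJ', he]
    have hA0 : (0 : ℤ) < 2 * (A I : ℤ) := by positivity
    rw [← hAA] at hB
    have hm0 := Int.emod_nonneg (2 * b I + Q.t) hA0.ne'
    have hm1 := Int.emod_nonneg (2 * b J + Q.t) hA0.ne'
    have hB2 : (2 * b I + Q.t) % (2 * (A I : ℤ)) = (2 * b J + Q.t) % (2 * (A I : ℤ)) := by
      omega
    have hd : (A I : ℤ) ∣ b I - b J := by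
      have h6 : (2 * (A I : ℤ)) ∣ (2 * b I + Q.t) - (2 * b J + Q.t) :=
        Int.ModEq.dvd hB2.symm
      obtain ⟨s, hs⟩ := h6
      exact ⟨s, by linarith⟩
    ext x
    obtain ⟨u, v, rfl⟩ := Q.gen x
    rw [h5, k5, ← he, ← hAA]
    constructor
    · rintro ⟨x', y', hx, hy, hd2⟩
      refine ⟨x', y', hx, hy, ?_⟩
      have : x' - y' * b J = (x' - y' * b I) + y' * (b I - b J) := by ring
      rw [this]
      exact dvd_add hd2 (Dvd.dvd.mul_left hd _)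
    · rintro ⟨x', y', hx, hy, hd2⟩
      refine ⟨x', y', hx, hy, ?_⟩
      have : x' - y' * b I = (x' - y' * b J) - y' * (b I - b J) := by ring
      rw [this]
      exact dvd_sub hd2 (Dvd.dvd.mul_left hd _)

end Pool.Agent.H56.CF
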