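import Pool.Agent.H56.CF.Targets
import Pool.Agent.H24.Cls.Primes

/-!
# Complete family, NVF: the number of residues modulo the integers
-/

set_option autoImplicit false

open NumberField Module
open scoped nonZeroDivisors

namespace Pool.Agent.H56.CF

open Pool.Agent.H24.Cls

theorem pf_NVF : T_NVF := by
  intro K _ _ hK f hf
  obtain ⟨Q, -⟩ := exists_quad K hK
  have hf0 : f ≠ 0 := by omega
  haveI : NeZero f := ⟨hf0⟩
  have hcard : Nat.card (𝓞 K ⧸ Ideal.span {(f : 𝓞 K)}) = f ^ 2 := by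
    rw [← Q.absNorm_natCast f, Ideal.absNorm_apply, Submodule.cardQuot_apply]
  haveI hfin : Finite (𝓞 K ⧸ Ideal.span {(f : 𝓞 K)}) := by
    refine Nat.finite_of_card_ne_zero ?_
    rw [hcard]
    exact pow_ne_zero 2 hf0
  haveI hchar : CharP (𝓞 K ⧸ Ideal.span {(f : 𝓞 K)}) f := by
    refine ⟨fun n => ?_⟩
    have e : ((n : ℕ) : 𝓞 K ⧸ Ideal.span {(f : 𝓞 K)}) =
        Ideal.Quotient.mk (Ideal.span {(f : 𝓞 K)}) (n : 𝓞 K) := by
      rw [map_natCast]
    rw [e, Ideal.Quotient.eq_zero_iff_mem, Ideal.mem_span_singleton]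
    constructor
    · rintro ⟨x, hx⟩
      obtain ⟨a, b, rfl⟩ := Q.gen x
      have h1 : ((n : ℤ) : 𝓞 K) + ((0 : ℤ) : 𝓞 K) * Q.w =
          ((f * a : ℤ) : 𝓞 K) + ((f * b : ℤ) : 𝓞 K) * Q.w := by
        push_cast
        rw [hx]
        ring
      have h2 := (Q.ext h1).1
      have h3 : (f : ℤ) ∣ (n : ℤ) := ⟨a, h2⟩
      exact_mod_cast h3
    · rintro ⟨m, rfl⟩
      exact ⟨(m : 𝓞 K), by push_cast; ring⟩
  refine ⟨inferInstance, ?_⟩
  have h1 : Nat.card (𝓞 K ⧸ Ideal.span {(f : 𝓞 K)})ˣ ≤ f ^ 2 := by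
    rw [← hcard]
    exact Nat.card_le_card_of_injective (fun u : (𝓞 K ⧸ Ideal.span {(f : 𝓞 K)})ˣ =>
      (u : 𝓞 K ⧸ Ideal.span {(f : 𝓞 K)})) Units.val_injective
  have h2 := Subgroup.card_eq_card_quotient_mul_card_subgroup (VF K f)
  have h3 : f.totient ≤ Nat.card (VF K f) := by
    have h4 : Nat.card (ZMod f)ˣ = f.totient := by
      rw [Nat.card_eq_fintype_card, ZMod.card_units_eq_totient]
    rw [← h4]
    let g : ZMod f →+* (𝓞 K ⧸ Ideal.span {(f : 𝓞 K)}) := ZMod.castHom (dvd_refl f) _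
    have hg : Function.Injective g := ZMod.castHom_injective _
    let F : (ZMod f)ˣ → VF K f := fun u => ⟨Units.map g.toMonoidHom u, by
      refine Subgroup.subset_closure ⟨(u : ZMod f).val, ?_⟩
      show g (u : ZMod f) = _
      rw [map_natCast, ← map_natCast g, ZMod.natCast_zmod_val]⟩
    refine Nat.card_le_card_of_injective F fun u v huv => ?_
    have h5 : Units.map g.toMonoidHom u = Units.map g.toMonoidHom v := congrArg Subtype.val huv
    have h6 : g (u : ZMod f) = g (v : ZMod f) := congrArg Units.val h5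
    exact Units.ext (hg h6)
  calc Nat.card ((𝓞 K ⧸ Ideal.span {(f : 𝓞 K)})ˣ ⧸ VF K f) * f.totient
      ≤ Nat.card ((𝓞 K ⧸ Ideal.span {(f : 𝓞 K)})ˣ ⧸ VF K f) * Nat.card (VF K f) :=
        Nat.mul_le_mul_left _ h3
    _ = Nat.card (𝓞 K ⧸ Ideal.span {(f : 𝓞 K)})ˣ := h2.symm
    _ ≤ f ^ 2 := h1

end Pool.Agent.H56.CF
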