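import Pool.Agent.H48.CF.RAPR
import Pool.Agent.H19.CF.RCLS
import Pool.Agent.H49.CF.RCNT
import Pool.Agent.H34.CF.RCOP
import Pool.Agent.H79.CF.RD34
import Pool.Agent.H32.CF.REMB
import Pool.Agent.H99.CF.RGNR
import Pool.Agent.H27.CF.RHNF
import Pool.Agent.H97.CF.RHRL
import Pool.Agent.H99.CF.RMHN
import Pool.Agent.H54.CF.RMNK
import Pool.Agent.H55.CF.RNFB
import Pool.Agent.H55.CF.RNRF
import Pool.Agent.H27.CF.RNTH
import Pool.Agent.H23.CF.RPHI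
import Pool.Agent.H23.CF.RRAT
import Pool.Agent.H79.CF.RREA
import Pool.Agent.H34.CF.RRSM
import Pool.Agent.H48.CF.RRTS
import Pool.Agent.H42.CF.RSAN
import Pool.Agent.H19.CF.RSHA
import Pool.Agent.H49.CF.RSHE
import Pool.Agent.H60.CF.RSHR
import Pool.Agent.H98.CF.RSQD
import Pool.Agent.H79.CF.RTLS
import Pool.Agent.H19.CF.RUNI
import Pool.Agent.H56.CF.RAKN
import Pool.Agent.H56.CF.RNVF

/-!
# Complete family (`MP_347b49_nt`), part R: all results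
-/

set_option autoImplicit false

namespace Pool.Agent.H56.CF.All

open Pool.Agent.H56.CF

theorem akn : T_AKN := pf_AKN Pool.Agent.H27.CF.pf_HNF
theorem san : T_SAN := Pool.Agent.H42.CF.pf_SAN akn Pool.Agent.H48.CF.pf_RTS
theorem sqd' : T_SQD := Pool.Agent.H98.CF.pf_SQD
theorem sha : T_SHA := Pool.Agent.H19.CF.pf_SHA Pool.Agent.H99.CF.pf_MHN san sqd'
theorem emb : T_EMB := Pool.Agent.H32.CF.pf_EMB
theorem uni : T_UNI := Pool.Agent.H19.CF.pf_UNI emb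
theorem gnr : T_GNR := Pool.Agent.H99.CF.pf_GNR emb (Pool.Agent.H54.CF.pf_MNK emb)
theorem cls : T_CLS := Pool.Agent.H19.CF.pf_CLS gnr (Pool.Agent.H48.CF.pf_APR uni)
theorem hrl : T_HRL := Pool.Agent.H97.CF.pf_HRL cls
theorem shr : T_SHR := Pool.Agent.H60.CF.pf_SHR hrl san sqd'
theorem she : T_SHE := Pool.Agent.H49.CF.pf_SHE sha shr
theorem rsm : Pool.Agent.H91.CF.T_RSM := Pool.Agent.H34.CF.pf_RSM she
theorem rat : T_RAT := Pool.Agent.H23.CF.pf_RAT Pool.Agent.H34.CF.pf_COP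
theorem nfb : T_NFB := Pool.Agent.H55.CF.pf_NFB Pool.Agent.H34.CF.pf_COP rat
theorem nvf : T_NVF := pf_NVF
theorem nrf : Pool.Agent.H91.CF.T_NRF := Pool.Agent.H55.CF.pf_NRF nvf Pool.Agent.H27.CF.pf_NTH nfb
theorem phi : T_PHI := Pool.Agent.H23.CF.pf_PHI
theorem cnt (hC : Pool.Agent.H91.CF.T_CND) : T_CNT := Pool.Agent.H49.CF.pf_CNT hC nrf
theorem tls : T_TLS := Pool.Agent.H79.CF.pf_TLS nrf sha phi
theorem rea (hC : Pool.Agent.H91.CF.T_CND) : T_REA :=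
  Pool.Agent.H79.CF.pf_REA (cnt hC) nrf she tls phi
theorem d34 (hC : Pool.Agent.H91.CF.T_CND) : T_D34 :=
  Pool.Agent.H79.CF.pf_D34 (cnt hC) nrf sha phi

end Pool.Agent.H56.CF.All
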