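import Pool.Agent.H91.CF.Main
import Pool.Agent.H24.Cls.Mink

/-!
# Complete family (`MP_347b49_nt`), part R: real quadratic fields, counting, tails

Every `T_XXX : Prop` is to be proved as a theorem `pf_XXX : T_XXX` in its own file, other targets
being hypotheses. `Quad` is the structure of coordinates of `Pool/Agent/H24/Cls/Basic.lean`,
`exists_quad` (in `H24/Cls/Exist.lean`) gives it for each quadratic field.
-/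

set_option autoImplicit false

open NumberField Module
open scoped nonZeroDivisors

namespace Pool.Agent.H56.CF

open Pool.Agent.H28.RC Pool.Agent.H91.CF Pool.Agent.H24.Cls Pool.Agent.H31.CN

/-! ## definitions -/

section defs

variable (K : Type) [Field K] [NumberField K]

/-- the number of ideals of norm `n` -/
noncomputable def aK (n : ℕ) : ℕ := {I : Ideal (𝓞 K) | Ideal.absNorm I = n}.ncard

/-- the number of roots `B` modulo `2 A` of `B ^ 2 = d` modulo `4 A` -/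
def rts (A : ℕ) (d : ℤ) : ℕ :=
  ((Finset.range (2 * A)).filter fun B : ℕ => (4 * (A : ℤ)) ∣ (B : ℤ) ^ 2 - d).card

/-- the number of the `e` with `e ^ 2` dividing `n` -/
def sqd (n : ℕ) : ℕ := ((Finset.Icc 1 n).filter fun e => e ^ 2 ∣ n).card

/-- `α` generates `I J` and has the size `e ^ j k` at the place `σ`, up to the factor
`N(I) / (2 √D)` -/
def Slot (σ : K →+* ℝ) (J : Ideal (𝓞 K)) (k : ℝ) (j : ℕ) (I : Ideal (𝓞 K)) (α : 𝓞 K) : Prop :=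
  α ≠ 0 ∧ I * J = Ideal.span {α} ∧
    Real.exp j * k * ((Ideal.absNorm I : ℝ) / (2 * √(discr K : ℝ))) ≤ |σ (α : K)| ∧
    |σ (α : K)| ≤ Real.exp j * k

/-- the subgroup of the residues of the natural numbers -/
def VF (f : ℕ) : Subgroup (𝓞 K ⧸ Ideal.span {(f : 𝓞 K)})ˣ :=
  Subgroup.closure {u | ∃ n : ℕ, (u : 𝓞 K ⧸ Ideal.span {(f : 𝓞 K)}) =
    Ideal.Quotient.mk (Ideal.span {(f : 𝓞 K)}) (n : 𝓞 K)}

/-- `θ` gives the values of `ψ` at the principal ideals which are prime to `f`, up to signs at the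
places in `S` -/
def Th (f : ℕ) (S : Finset (RP K)) (ψ : Ideal (𝓞 K) → ℂ)
    (θ : ((𝓞 K ⧸ Ideal.span {(f : 𝓞 K)})ˣ ⧸ VF K f) →* ℂˣ) : Prop :=
  ∀ (a : 𝓞 K) (u : (𝓞 K ⧸ Ideal.span {(f : 𝓞 K)})ˣ), a ≠ 0 →
    (u : 𝓞 K ⧸ Ideal.span {(f : 𝓞 K)}) = Ideal.Quotient.mk (Ideal.span {(f : 𝓞 K)}) a →
    ψ (Ideal.span {a}) = sg K S a * ((θ (QuotientGroup.mk u) : ℂˣ) : ℂ)

end defs

/-- `K d` is a quadratic field of discriminant `d` with `|d| ≤ Y` for each `d ∈ S` -/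
def Fam (K : ℤ → Type) [∀ d, Field (K d)] [∀ d, NumberField (K d)] (S : Finset ℤ) (Y : ℝ) :
    Prop :=
  ∀ d ∈ S, finrank ℚ (K d) = 2 ∧ discr (K d) = d ∧ |(d : ℝ)| ≤ Y

/-! ## A. ideals of norm `n`, average over the discriminant -/

/-- HNF: Hermite normal form of an ideal. -/
def T_HNF : Prop := ∀ (K : Type) [Field K] [NumberField K] (Q : Quad (𝓞 K)) (I : Ideal (𝓞 K)),
  I ≠ ⊥ → ∃ (e A : ℕ) (b : ℤ), 1 ≤ e ∧ 1 ≤ A ∧ Ideal.absNorm I = e ^ 2 * A ∧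
    (A : ℤ) ∣ b ^ 2 + Q.t * b + Q.n ∧
    ∀ x y : ℤ, (x : 𝓞 K) + y * Q.w ∈ I ↔
      ∃ x' y' : ℤ, x = e * x' ∧ y = e * y' ∧ (A : ℤ) ∣ x' - y' * b

/-- AKN: the ideals of norm `n` and the roots. -/
def T_AKN : Prop := ∀ (K : Type) [Field K] [NumberField K], finrank ℚ K = 2 → ∀ n : ℕ, 1 ≤ n →
  aK K n ≤ ∑ e ∈ (Finset.Icc 1 n).filter (fun e => e ^ 2 ∣ n), rts (n / e ^ 2) (discr K)

/-- RTS: the number of roots on average over the discriminant. -/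
def T_RTS : Prop := ∀ (A : ℕ) (Y : ℝ) (S : Finset ℤ), 1 ≤ A → 0 ≤ Y → (∀ d ∈ S, |(d : ℝ)| ≤ Y) →
  ∑ d ∈ S, (rts A d : ℝ) ≤ Y + 2 * A

/-- SAN: the number of ideals of norm `n` on average over the discriminant. -/
def T_SAN : Prop := ∀ (K : ℤ → Type) [∀ d, Field (K d)] [∀ d, NumberField (K d)] (S : Finset ℤ)
  (Y : ℝ) (n : ℕ), Fam K S Y → 1 ≤ Y → 1 ≤ n → (n : ℝ) ≤ 2 * √Y →
  ∑ d ∈ S, (aK (K d) n : ℝ) ≤ 5 * Y * sqd n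

/-- SQD -/
def T_SQD : Prop := ∀ x : ℝ, 0 < x →
  ∑ n ∈ Finset.Icc 1 ⌊x⌋₊, (sqd n : ℝ) * (Real.log (x / n) + 1) ≤ 4 * x

/-- MHN: Minkowski's bound. -/
def T_MHN : Prop := ∀ (K : Type) [Field K] [NumberField K], finrank ℚ K = 2 →
  (classNumber K : ℝ) ≤ ∑ n ∈ Finset.Icc 1 ⌊2 * √|(discr K : ℝ)|⌋₊, (aK K n : ℝ)

/-- SHA: sums of class numbers. -/
def T_SHA : Prop := ∀ (K : ℤ → Type) [∀ d, Field (K d)] [∀ d, NumberField (K d)] (S : Finset ℤ)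
  (Y : ℝ), Fam K S Y → 1 ≤ Y → ∑ d ∈ S, (classNumber (K d) : ℝ) ≤ 40 * Y ^ (3 / 2 : ℝ)

/-! ## B. real quadratic fields -/

/-- EMB: two real embeddings. -/
def T_EMB : Prop := ∀ (K : Type) [Field K] [NumberField K], finrank ℚ K = 2 → 0 < discr K →
  (∃ σ τ : K →+* ℝ, σ ≠ τ) ∧ ∀ σ τ : K →+* ℝ, σ ≠ τ →
    ∀ x : 𝓞 K, (Ideal.absNorm (Ideal.span {x}) : ℝ) = |σ x * τ x|

/-- MNK: Minkowski's theorem for an ideal. -/
def T_MNK : Prop := ∀ (K : Type) [Field K] [NumberField K], finrank ℚ K = 2 → 0 < discr K →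
  ∀ σ τ : K →+* ℝ, σ ≠ τ → ∀ J : Ideal (𝓞 K), J ≠ ⊥ → ∀ u : ℝ, 0 < u →
  ∃ α : 𝓞 K, α ∈ J ∧ α ≠ 0 ∧ |σ α| ≤ u * √(2 * √(discr K : ℝ) * Ideal.absNorm J) ∧
    |τ α| ≤ √(2 * √(discr K : ℝ) * Ideal.absNorm J) / u

/-- UNI: units are large. -/
def T_UNI : Prop := ∀ (K : Type) [Field K] [NumberField K], finrank ℚ K = 2 → 0 < discr K →
  ∀ σ : K →+* ℝ, ∀ u : (𝓞 K)ˣ, 1 < |σ ((u : 𝓞 K) : K)| →
    √(discr K : ℝ) - 1 ≤ |σ ((u : 𝓞 K) : K)|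

/-- GNR: generators in all slots. -/
def T_GNR : Prop := ∀ (K : Type) [Field K] [NumberField K], finrank ℚ K = 2 → 0 < discr K →
  ∀ (c : ClassGroup (𝓞 K)) (J : (Ideal (𝓞 K))⁰), ClassGroup.mk0 J = c⁻¹ →
  ∃ (σ : K →+* ℝ) (k : ℝ), 0 < k ∧ ∀ j : ℕ, ∃ (I : (Ideal (𝓞 K))⁰) (α : 𝓞 K),
    ClassGroup.mk0 I = c ∧ (Ideal.absNorm (I : Ideal (𝓞 K)) : ℝ) ≤ 2 * √(discr K : ℝ) ∧
    Slot K σ (J : Ideal (𝓞 K)) k j (I : Ideal (𝓞 K)) α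

/-- APR: slots of the same ideal. -/
def T_APR : Prop := ∀ (K : Type) [Field K] [NumberField K], finrank ℚ K = 2 → 0 < discr K →
  ∀ (σ : K →+* ℝ) (J I : (Ideal (𝓞 K))⁰) (k : ℝ) (j j' : ℕ) (α α' : 𝓞 K), 0 < k → j < j' →
  Slot K σ (J : Ideal (𝓞 K)) k j (I : Ideal (𝓞 K)) α →
  Slot K σ (J : Ideal (𝓞 K)) k j' (I : Ideal (𝓞 K)) α' →
  (j' : ℝ) - j ≤ Real.log (2 * √(discr K : ℝ) / Ideal.absNorm (I : Ideal (𝓞 K))) ∨
    Real.log (√(discr K : ℝ) - 1) ≤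
      (j' : ℝ) - j + Real.log (2 * √(discr K : ℝ) / Ideal.absNorm (I : Ideal (𝓞 K)))

/-- CLS: the ideals of small norm in a class. -/
def T_CLS : Prop := ∀ (K : Type) [Field K] [NumberField K], finrank ℚ K = 2 → 0 < discr K →
  ∀ c : ClassGroup (𝓞 K), Real.log (√(discr K : ℝ) - 1) / 2 ≤
    ∑ᶠ I : {I : (Ideal (𝓞 K))⁰ // ClassGroup.mk0 I = c ∧
      (Ideal.absNorm (I : Ideal (𝓞 K)) : ℝ) ≤ 2 * √(discr K : ℝ)},
      (Real.log (2 * √(discr K : ℝ) / Ideal.absNorm (I.1 : Ideal (𝓞 K))) + 1)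

/-- HRL: class number and ideals of small norm. -/
def T_HRL : Prop := ∀ (K : Type) [Field K] [NumberField K], finrank ℚ K = 2 → 0 < discr K →
  (classNumber K : ℝ) * (Real.log (√(discr K : ℝ) - 1) / 2) ≤
    ∑ n ∈ Finset.Icc 1 ⌊2 * √(discr K : ℝ)⌋₊,
      (aK K n : ℝ) * (Real.log (2 * √(discr K : ℝ) / n) + 1)

/-- SHR: weighted sums of class numbers of real quadratic fields. -/
def T_SHR : Prop := ∀ (K : ℤ → Type) [∀ d, Field (K d)] [∀ d, NumberField (K d)] (S : Finset ℤ)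
  (Y : ℝ), Fam K S Y → (∀ d ∈ S, 0 < d) → 1 ≤ Y →
  ∑ d ∈ S, (classNumber (K d) : ℝ) * (Real.log (√(d : ℝ) - 1) / 2) ≤ 40 * Y ^ (3 / 2 : ℝ)

/-- SHE: sums of class numbers of real quadratic fields. -/
def T_SHE : Prop := ∃ C : ℝ, 0 < C ∧ ∀ (K : ℤ → Type) [∀ d, Field (K d)]
  [∀ d, NumberField (K d)] (S : Finset ℤ) (Y : ℝ), Fam K S Y → (∀ d ∈ S, 0 < d) → 2 ≤ Y →
  ∑ d ∈ S, (classNumber (K d) : ℝ) ≤ C * Y ^ (3 / 2 : ℝ) / Real.log Y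

/-! ## C. the number of characters with given conductor -/

/-- NVF: the number of residues modulo the integers. -/
def T_NVF : Prop := ∀ (K : Type) [Field K] [NumberField K], finrank ℚ K = 2 → ∀ f : ℕ, 1 ≤ f →
  Finite ((𝓞 K ⧸ Ideal.span {(f : 𝓞 K)})ˣ ⧸ VF K f) ∧
  Nat.card ((𝓞 K ⧸ Ideal.span {(f : 𝓞 K)})ˣ ⧸ VF K f) * f.totient ≤ f ^ 2

/-- NTH: the values at the principal ideals. -/
def T_NTH : Prop := ∀ (K : Type) [Field K] [NumberField K] (f : ℕ), 1 ≤ f → ∀ χ ∈ RQ K f,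
  ∃ θ, Th K f χ.S χ.ψ θ

/-- COP: ideals prime to `f` in each class. -/
def T_COP : Prop := ∀ (K : Type) [Field K] [NumberField K] (f : ℕ), 1 ≤ f →
  ∀ c : ClassGroup (𝓞 K), ∃ I : (Ideal (𝓞 K))⁰, ClassGroup.mk0 I = c ∧
    (I : Ideal (𝓞 K)) ⊔ Ideal.span {(f : 𝓞 K)} = ⊤

/-- RAT: two characters with the same values at the principal ideals differ by a character of the
class group. -/
def T_RAT : Prop := ∀ (K : Type) [Field K] [NumberField K] (f : ℕ), 1 ≤ f →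
  ∀ (S : Finset (RP K)) (θ : ((𝓞 K ⧸ Ideal.span {(f : 𝓞 K)})ˣ ⧸ VF K f) →* ℂˣ)
    (χ χ' : RCC K), χ ∈ RQ K f → χ' ∈ RQ K f → χ.S = S → χ'.S = S → Th K f S χ.ψ θ →
    Th K f S χ'.ψ θ → ∃ φ : ClassGroup (𝓞 K) →* ℂˣ, ∀ I : (Ideal (𝓞 K))⁰,
      χ'.ψ I = χ.ψ I * ((φ (ClassGroup.mk0 I) : ℂˣ) : ℂ)

/-- NFB: the number of characters with the same values at the principal ideals. -/
def T_NFB : Prop := ∀ (K : Type) [Field K] [NumberField K] (f : ℕ), 1 ≤ f →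
  ∀ (S : Finset (RP K)) (θ : ((𝓞 K ⧸ Ideal.span {(f : 𝓞 K)})ˣ ⧸ VF K f) →* ℂˣ),
  {χ : RCC K | χ ∈ RQ K f ∧ χ.S = S ∧ Th K f S χ.ψ θ}.Finite ∧
  {χ : RCC K | χ ∈ RQ K f ∧ χ.S = S ∧ Th K f S χ.ψ θ}.ncard ≤ classNumber K ∧
  {χ : RCC K | χ ∈ RQ K f ∧ ¬ NRe χ ∧ χ.S = S ∧ Th K f S χ.ψ θ}.ncard ≤ rc K

/-- PHI -/
def T_PHI : Prop := ∀ f : ℕ, 1 ≤ f → f ≤ 2 * f.totient ^ 2

/-! ## D. sums over the conductor -/

/-- CNT: the conductors. -/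
def T_CNT : Prop := ∀ (K : Type) [Field K] [NumberField K] (X : ℝ), finrank ℚ K = 2 → 0 ≤ X →
  (OX K X).Finite ∧
  (OX K X).ncard ≤ ∑ f ∈ Finset.Icc 1 ⌊√(X / |(discr K : ℝ)|)⌋₊, nn K f

/-- TLS: tails. -/
def T_TLS : Prop := ∃ C : ℝ, 0 < C ∧ ∀ (K : ℤ → Type) [∀ d, Field (K d)]
  [∀ d, NumberField (K d)] (S : Finset ℤ) (X : ℝ) (F : ℕ), Fam K S X → 1 ≤ X → 1 ≤ F →
  ∑ d ∈ S, ∑ f ∈ Finset.Ioc F ⌊√(X / |(d : ℝ)|)⌋₊, (nn (K d) f : ℝ) ≤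
    C * X ^ (3 / 2 : ℝ) / √F

/-- REA: real fields are negligible. -/
def T_REA : Prop := ∀ ε : ℝ, 0 < ε → ∃ X₀ : ℝ, ∀ (K : ℤ → Type) [∀ d, Field (K d)]
  [∀ d, NumberField (K d)] (S : Finset ℤ) (X : ℝ), X₀ ≤ X → Fam K S X → (∀ d ∈ S, 0 < d) →
  ∑ d ∈ S, ((OX (K d) X).ncard : ℝ) ≤ ε * X ^ (3 / 2 : ℝ)

/-- D34: the discriminants `-3` and `-4`. -/
def T_D34 : Prop := ∃ C : ℝ, 0 < C ∧ ∀ (K : Type) [Field K] [NumberField K] (X : ℝ),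
  finrank ℚ K = 2 → |(discr K : ℝ)| ≤ 4 → 1 ≤ X → ((OX K X).ncard : ℝ) ≤ C * X ^ (5 / 4 : ℝ)

end Pool.Agent.H56.CF
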