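import Pool.Agent.H95.CF.Targets

/-!
# Ideals prime to a natural number and their norms
-/

set_option autoImplicit false

open NumberField Module MeasureTheory Set Filter Pool.Agent.H31.CN Pool.Agent.H95.CF
open scoped nonZeroDivisors Real

namespace Pool.Agent.H56.CF

theorem pf_PRN : T_PRN := by
  intro K _ _ f J hJ
  constructor
  · rintro ⟨-, h⟩
    by_contra hc
    obtain ⟨p, hp, h1, h2⟩ := Nat.Prime.not_coprime_iff_dvd.1 hc
    obtain ⟨P, hP, hu, hd⟩ := Ideal.exists_isMaximal_dvd_of_dvd_absNorm' (S := 𝓞 K) hp J h1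
    have hJP : J ≤ P := Ideal.le_of_dvd hd
    have hpP : ((p : ℤ) : 𝓞 K) ∈ P := by
      have h3 : (p : ℤ) ∈ P.under ℤ := by rw [hu]; exact Ideal.mem_span_singleton_self _
      rw [Ideal.under_def, Ideal.mem_comap] at h3
      simpa using h3
    have hfP : (f : 𝓞 K) ∈ P := by
      obtain ⟨c, rfl⟩ := h2
      rw [Nat.cast_mul]
      refine Ideal.mul_mem_right _ _ ?_
      simpa using hpP
    apply hP.ne_top
    rw [eq_top_iff, ← h]
    exact sup_le hJP ((Ideal.span_singleton_le_iff_mem _).2 hfP)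
  · intro h
    refine ⟨hJ, ?_⟩
    rw [Ideal.eq_top_iff_one]
    have h1 : IsCoprime ((Ideal.absNorm J : ℕ) : ℤ) (f : ℤ) := Nat.isCoprime_iff_coprime.2 h
    obtain ⟨x, y, hxy⟩ := h1
    have h2 : (1 : 𝓞 K) = (x : 𝓞 K) * (Ideal.absNorm J : 𝓞 K) + (y : 𝓞 K) * (f : 𝓞 K) := by
      have := congrArg (fun z : ℤ => (z : 𝓞 K)) hxy
      push_cast at this
      exact this.symm
    rw [h2]
    exact Submodule.add_mem_sup (Ideal.mul_mem_left _ _ (Ideal.absNorm_mem J))
      (Ideal.mul_mem_left _ _ (Ideal.mem_span_singleton_self _))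

end Pool.Agent.H56.CF
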