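import Pool.Agent.H95.CF.T3

/-!
# Complete family, PFD: the prime ideals of norm `p` of an imaginary quadratic field
-/

set_option autoImplicit false

open NumberField Module MeasureTheory Set Filter Pool.Agent.H31.CN Pool.Agent.H65.CF
  Pool.Agent.H95.CF
open scoped nonZeroDivisors Real

namespace Pool.Agent.H56.CF

theorem fu_of_fd {D : ℕ} (h : Fd D) : Pool.Agent.H91.CF.Fu D := by
  rcases h with h | ⟨m, rfl, h1, h2⟩
  · exact Or.inl h
  · refine Or.inr ⟨Dvd.intro m rfl, ?_, ?_⟩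
    · rw [Nat.mul_div_cancel_left m (by norm_num)]; exact h1
    · rw [Nat.mul_div_cancel_left m (by norm_num)]; exact h2

theorem ch_bridge (p D : ℕ) : Pool.Agent.H91.CF.ch p (D : ℤ) = ch p D := by
  unfold Pool.Agent.H91.CF.ch ch
  have e1 : ((D : ℤ) % 8 = 7) ↔ D % 8 = 7 := by omega
  have e2 : ((D : ℤ) % 8 = 3) ↔ D % 8 = 3 := by omega
  simp only [e1, e2]

theorem nrt_le_two {p : ℕ} (hp : p.Prime) (D : ℤ) : nrt p 1 0 D ≤ 2 := by
  unfold nrt
  rcases Finset.eq_empty_or_nonempty ((Finset.range p).filter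
    (fun j : ℕ => (p : ℤ) ∣ 1 * (j : ℤ) ^ 2 + 0 * (j : ℤ) + D)) with h | ⟨j₀, hj₀⟩
  · rw [h]; simp
  · have hsub : (Finset.range p).filter
        (fun j : ℕ => (p : ℤ) ∣ 1 * (j : ℤ) ^ 2 + 0 * (j : ℤ) + D) ⊆ {j₀, p - j₀} := by
      intro j hj
      rw [Finset.mem_filter, Finset.mem_range] at hj hj₀
      rw [Finset.mem_insert, Finset.mem_singleton]
      have h1 : (p : ℤ) ∣ ((j : ℤ) - j₀) * ((j : ℤ) + j₀) := by
        have h2 := dvd_sub hj.2 hj₀.2
        have e : (1 * (j : ℤ) ^ 2 + 0 * (j : ℤ) + D) - (1 * (j₀ : ℤ) ^ 2 + 0 * (j₀ : ℤ) + D) =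
          ((j : ℤ) - j₀) * ((j : ℤ) + j₀) := by ring
        rw [e] at h2
        exact h2
      have hpi : Prime (p : ℤ) := Nat.prime_iff_prime_int.1 hp
      rcases hpi.dvd_or_dvd h1 with h2 | h2
      · left
        obtain ⟨t, ht⟩ := h2
        have h3 : t = 0 := by
          by_contra h4
          rcases lt_or_gt_of_ne h4 with h5 | h5
          · have : (p : ℤ) * t ≤ -p := by nlinarith [hp.pos]
            omega
          · have : (p : ℤ) ≤ p * t := by nlinarith [hp.pos]
            omega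
        rw [h3, mul_zero] at ht
        omega
      · obtain ⟨t, ht⟩ := h2
        have h3 : t = 0 ∨ t = 1 := by
          by_contra h4
          have h5 : t < 0 ∨ 2 ≤ t := by omega
          rcases h5 with h5 | h5
          · have : (p : ℤ) * t ≤ -p := by nlinarith [hp.pos]
            have := hp.pos
            omega
          · have : (2 * p : ℤ) ≤ p * t := by nlinarith [hp.pos]
            omega
        rcases h3 with h3 | h3
        · rw [h3, mul_zero] at ht
          left
          omega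
        · rw [h3, mul_one] at ht
          right
          omega
    exact (Finset.card_le_card hsub).trans Finset.card_le_two

theorem pf_PFD (hNPQ : T_NPQ) (hPCT : T_PCT) : T_PFD := by
  intro D K _ _ hD hFd hfin hdis p hp
  have hFu := fu_of_fd hFd
  obtain ⟨σ⟩ : Nonempty (K →+* ℂ) := inferInstance
  obtain ⟨Q, I, α, β, b, hFB⟩ := fb_exists D K σ hD hfin hdis (hPCT D hFu).1
  have hpp : ¬ p ^ 2 ∣ p := by
    intro h
    have h1 := Nat.le_of_dvd hp.pos h
    have h2 := hp.one_lt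
    nlinarith
  have h1 := (hNPQ p D p (Q 1) hFu (hFB.fd 1) hp dvd_rfl).1
  unfold Pool.Agent.H91.CF.npQ Pool.Agent.H91.CF.npD Pool.Agent.H91.CF.npt at h1
  rw [if_neg hpp, if_neg hpp, ch_bridge] at h1
  have hprt : (prt p (Q 1) : ℤ) = 1 + ch p D := by linarith
  have hv : (((p : ℤ), 0) : ℤ × ℤ) ≠ 0 := by
    intro h
    have h2 : (p : ℤ) = 0 := congrArg Prod.fst h
    have h3 := hp.pos
    omega
  have hv1 : ((1, 0) : ℤ × ℤ) ≠ 0 := by simp
  have hnu : nu p (Q 1) ((p : ℤ), 0) = prt p (Q 1) := by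
    unfold nu
    rw [hp.primeFactors, Finset.prod_singleton]
    unfold nul
    rw [if_pos ⟨dvd_rfl, dvd_zero _⟩]
  have hb : ((b 1 ((p : ℤ), 0) : (Ideal (𝓞 K))⁰) : Ideal (𝓞 K)) = Ideal.span {(p : 𝓞 K)} := by
    have h2 := hFB.spn 1 ((p : ℤ), 0) hv
    have h3 := hFB.spn 1 (1, 0) hv1
    rw [hFB.bone, Submonoid.coe_one, one_mul] at h3
    simp only [Int.cast_natCast, Int.cast_zero, zero_mul, add_zero, Int.cast_one, one_mul]
      at h2 h3
    rw [← Ideal.span_singleton_mul_span_singleton, h3] at h2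
    have h4 : ((I 1 : (Ideal (𝓞 K))⁰) : Ideal (𝓞 K)) ≠ 0 := nonZeroDivisors.coe_ne_zero (I 1)
    exact (mul_right_cancel₀ h4 h2).symm
  have h2 := hFB.nu 1 ((p : ℤ), 0) p hv hp.prime.squarefree
  rw [hnu, hb] at h2
  have h3 : aI K p = prt p (Q 1) := by
    rw [h2]
    unfold aI
    refine Nat.card_congr (Equiv.subtypeEquivRight fun P => ?_)
    constructor
    · intro h
      refine ⟨h, ?_⟩
      rw [Ideal.dvd_span_singleton, ← h]
      exact Ideal.absNorm_mem P
    · exact fun h => h.1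
  have h4 : (aI K p : ℤ) = 1 + ch p D := by rw [h3]; exact hprt
  refine ⟨h4, ?_⟩
  have h5 : ch p D ≤ 1 := by
    unfold ch
    split_ifs
    · norm_num
    · norm_num
    · norm_num
    · have h6 := nrt_le_two hp (D : ℤ)
      omega
  omega

end Pool.Agent.H56.CF
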