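import Pool.Agent.H65.CF.T6

/-!
# Complete family, PZF: the mollified value of a form as a sum over roots

Adapted from helper77's `Pool/Agent/H77/CN/PZ1.lean` (the principal form).
-/

set_option autoImplicit false

open MeasureTheory Set Filter
open scoped Real

namespace Pool.Agent.H56.CF.PZF

open Pool.Agent.H31.CN Pool.Agent.H65.AD Pool.Agent.H91.CF Pool.Agent.H65.CF

/-- the roots compatible with a vector -/
noncomputable def rts (m : ℕ) (Q : QF) (v : ℤ × ℤ) : Finset ℕ :=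
  (Finset.range m).filter (fun j : ℕ =>
    (m : ℤ) ∣ Q.1 * (j : ℤ) ^ 2 + Q.2.1 * (j : ℤ) + Q.2.2 ∧ (m : ℤ) ∣ v.1 - j * v.2)

theorem cond_mod (a j : ℕ) (Q : QF) (v : ℤ × ℤ) :
    ((a : ℤ) ∣ Q.1 * (j : ℤ) ^ 2 + Q.2.1 * (j : ℤ) + Q.2.2 ∧ (a : ℤ) ∣ v.1 - j * v.2) ↔
      ((a : ℤ) ∣ Q.1 * ((j % a : ℕ) : ℤ) ^ 2 + Q.2.1 * ((j % a : ℕ) : ℤ) + Q.2.2 ∧
        (a : ℤ) ∣ v.1 - ((j % a : ℕ) : ℤ) * v.2) := by
  have h : (j : ℤ) ≡ ((j % a : ℕ) : ℤ) [ZMOD a] := by
    rw [Int.natCast_mod]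
    exact (Int.mod_modEq _ _).symm
  have h1 : Q.1 * (j : ℤ) ^ 2 + Q.2.1 * (j : ℤ) + Q.2.2 ≡
      Q.1 * ((j % a : ℕ) : ℤ) ^ 2 + Q.2.1 * ((j % a : ℕ) : ℤ) + Q.2.2 [ZMOD a] :=
    (((h.pow 2).mul_left Q.1).add (h.mul_left Q.2.1)).add_right Q.2.2
  have h2 : v.1 - j * v.2 ≡ v.1 - ((j % a : ℕ) : ℤ) * v.2 [ZMOD a] :=
    Int.ModEq.sub_left v.1 (h.mul_right v.2)
  unfold Int.ModEq at h1 h2
  rw [Int.dvd_iff_emod_eq_zero, Int.dvd_iff_emod_eq_zero, h1, h2, ← Int.dvd_iff_emod_eq_zero,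
    ← Int.dvd_iff_emod_eq_zero]

theorem mem_rts {m : ℕ} {Q : QF} {v : ℤ × ℤ} {j : ℕ} : j ∈ rts m Q v ↔ j < m ∧
    ((m : ℤ) ∣ Q.1 * (j : ℤ) ^ 2 + Q.2.1 * (j : ℤ) + Q.2.2 ∧ (m : ℤ) ∣ v.1 - j * v.2) := by
  unfold rts
  rw [Finset.mem_filter, Finset.mem_range]

theorem rts_mul (a b : ℕ) (ha : 0 < a) (hb : 0 < b) (hab : Nat.Coprime a b) (c : QF)
    (v : ℤ × ℤ) : (rts (a * b) c v).card = (rts a c v).card * (rts b c v).card := by
  rw [← Finset.card_product]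
  refine Finset.card_bij (fun j _ => (j % a, j % b)) ?_ ?_ ?_
  · intro j hj
    rw [mem_rts] at hj
    rw [Finset.mem_product, mem_rts, mem_rts]
    have h1 : (a : ℤ) ∣ ((a * b : ℕ) : ℤ) := by exact_mod_cast Dvd.intro b rfl
    have h2 : (b : ℤ) ∣ ((a * b : ℕ) : ℤ) := by exact_mod_cast Dvd.intro_left a rfl
    refine ⟨⟨Nat.mod_lt _ ha, ?_⟩, ⟨Nat.mod_lt _ hb, ?_⟩⟩
    · exact (cond_mod a j c v).1 ⟨h1.trans hj.2.1, h1.trans hj.2.2⟩
    · exact (cond_mod b j c v).1 ⟨h2.trans hj.2.1, h2.trans hj.2.2⟩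
  · intro j hj j' hj' h
    rw [mem_rts] at hj hj'
    rw [Prod.mk.injEq] at h
    have h1 : j ≡ j' [MOD a * b] := (Nat.modEq_and_modEq_iff_modEq_mul hab).1 ⟨h.1, h.2⟩
    exact h1.eq_of_lt_of_lt hj.1 hj'.1
  · rintro ⟨x, y⟩ hxy
    rw [Finset.mem_product, mem_rts, mem_rts] at hxy
    obtain ⟨⟨hx, hx'⟩, ⟨hy, hy'⟩⟩ := hxy
    obtain ⟨j, hj1, hj2⟩ := Nat.chineseRemainder hab x y
    have hz : (j % (a * b)) % a = x := by
      rw [Nat.mod_mul_right_mod]
      have e1 : j % a = x % a := hj1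
      rw [e1]
      exact Nat.mod_eq_of_lt hx
    have hw : (j % (a * b)) % b = y := by
      rw [Nat.mod_mul_left_mod]
      have e1 : j % b = y % b := hj2
      rw [e1]
      exact Nat.mod_eq_of_lt hy
    refine ⟨j % (a * b), ?_, ?_⟩
    · rw [mem_rts]
      refine ⟨Nat.mod_lt _ (Nat.mul_pos ha hb), ?_⟩
      have h1 := (cond_mod a (j % (a * b)) c v).2 (by rw [hz]; exact hx')
      have h2 := (cond_mod b (j % (a * b)) c v).2 (by rw [hw]; exact hy')
      have h3 : IsCoprime (a : ℤ) (b : ℤ) := Nat.isCoprime_iff_coprime.2 hab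
      rw [Nat.cast_mul]
      exact ⟨h3.mul_dvd h1.1 h2.1, h3.mul_dvd h1.2 h2.2⟩
    · rw [hz, hw]

theorem nu_eq (hHK3 : T_HK3) (Q : QF) (v : ℤ × ℤ) : ∀ m : ℕ, Squarefree m →
    IsCoprime Q.1 (m : ℤ) → nu m Q v = (rts m Q v).card := by
  have hprime : ∀ p : ℕ, p.Prime → IsCoprime Q.1 (p : ℤ) → nul p Q v = (rts p Q v).card := by
    intro p hp hc
    have h1 := hHK3 p Q v hp
    have h2 : ¬ (p : ℤ) ∣ Q.1 := by
      intro h
      have h3 : IsUnit (p : ℤ) := hc.isUnit_of_dvd' h dvd_rfl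
      have h4 := Int.isUnit_iff.1 h3
      have h5 := hp.one_lt
      omega
    simp only [h2, false_and, if_false, zero_add] at h1
    rw [← h1]
    rfl
  intro m
  induction m using Nat.strong_induction_on with
  | _ m ih =>
    intro hm hcm
    by_cases h1 : m = 1
    · rw [h1]
      have h2 : rts 1 Q v = {0} := by
        ext j
        rw [mem_rts, Finset.mem_singleton]
        constructor
        · intro h; omega
        · intro h
          rw [h]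
          exact ⟨one_pos, by simp⟩
      rw [h2, Finset.card_singleton]
      unfold nu
      rw [Nat.primeFactors_one, Finset.prod_empty]
    · have hm0 : m ≠ 0 := hm.ne_zero
      have hp := Nat.minFac_prime h1
      obtain ⟨m', hm'⟩ := Nat.minFac_dvd m
      obtain ⟨p, hpd⟩ : ∃ p, p = m.minFac := ⟨_, rfl⟩
      rw [← hpd] at hm' hp
      have hsm := hm
      rw [hm', Nat.squarefree_mul_iff] at hsm
      have hm'0 : 0 < m' := by
        refine Nat.pos_of_ne_zero fun h0 => hm0 ?_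
        rw [hm', h0, mul_zero]
      have hlt : m' < m := by
        rw [hm']
        nlinarith [hp.one_lt]
      have hc2 : IsCoprime Q.1 ((p : ℤ) * (m' : ℤ)) := by
        have := hcm
        rw [hm', Nat.cast_mul] at this
        exact this
      have h2 := ih m' hlt hsm.2.2 hc2.of_mul_right_right
      rw [hm', rts_mul p m' hp.pos hm'0 hsm.1, ← h2, ← hprime p hp hc2.of_mul_right_left]
      unfold nu
      rw [Nat.Coprime.primeFactors_mul hsm.1,
        Finset.prod_union (Nat.Coprime.disjoint_primeFactors hsm.1), hp.primeFactors,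
        Finset.prod_singleton]

theorem pf_PZF (hHK3 : T_HK3) (hZTH : T_ZTH) : T_PZF := by
  classical
  intro Q m hA hD hm hco
  have hm0 : 0 < m := Nat.pos_of_ne_zero hm.ne_zero
  have hmR : (0 : ℝ) < m := by exact_mod_cast hm0
  have hAR : (0 : ℝ) < Q.1 := by exact_mod_cast hA
  obtain ⟨D, hDe⟩ : ∃ D : ℝ, D = (dsc Q : ℝ) := ⟨_, rfl⟩
  have hDR : (0 : ℝ) < D := by rw [hDe]; exact_mod_cast hD
  rw [← hDe]
  obtain ⟨F, hF⟩ : ∃ F : ℤ × ℤ → ℝ, F = fun v => Vk (val Q v / (m * Real.sqrt D)) /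
    Real.sqrt (val Q v) := ⟨_, rfl⟩
  obtain ⟨R, hR⟩ : ∃ R : Finset ℕ, R = (Finset.range m).filter
    (fun j : ℕ => (m : ℤ) ∣ Q.1 * (j : ℤ) ^ 2 + Q.2.1 * j + Q.2.2) := ⟨_, rfl⟩
  have hterm : ∀ v : ℤ × ℤ, Vk (val Q v / (m * Real.sqrt D)) *
        nu m Q v / Real.sqrt (val Q v) =
      ∑ j ∈ R, if (m : ℤ) ∣ v.1 - j * v.2 then F v else 0 := by
    intro v
    rw [nu_eq hHK3 Q v m hm hco, ← Finset.sum_filter, Finset.sum_const, nsmul_eq_mul]
    have h1 : R.filter (fun j : ℕ => (m : ℤ) ∣ v.1 - j * v.2) = rts m Q v := by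
      rw [hR]
      unfold rts
      rw [Finset.filter_filter]
    rw [h1, hF]
    ring
  have hval : ∀ (j : ℕ) (v : ℤ × ℤ), (val Q ((m : ℤ) * v.1 + j * v.2, v.2) : ℝ) =
      m * qd (m * Q.1) (Q.2.1 + 2 * Q.1 * j) D v := by
    intro j v
    rw [hDe]
    unfold val qd dsc
    push_cast
    field_simp
    ring
  have hkey : ∀ j ∈ R, Summable (fun v : ℤ × ℤ => if (m : ℤ) ∣ v.1 - j * v.2 then F v else 0) ∧
      ∑' v : ℤ × ℤ, (if (m : ℤ) ∣ v.1 - j * v.2 then F v else 0) =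
        1 / Real.sqrt m * zf (m * Q.1) (Q.2.1 + 2 * Q.1 * j) D := by
    intro j _
    have hinj : Function.Injective
        (fun v : ℤ × ℤ => (((m : ℤ) * v.1 + j * v.2, v.2) : ℤ × ℤ)) := by
      rintro ⟨x, y⟩ ⟨x', y'⟩ h
      simp only [Prod.mk.injEq] at h
      obtain ⟨h1, h2⟩ := h
      rw [h2] at h1
      have h3 : (m : ℤ) * x = m * x' := by linarith
      have h4 : (m : ℤ) ≠ 0 := by exact_mod_cast hm0.ne'
      rw [mul_left_cancel₀ h4 h3, h2]
    have hcomp : ∀ v : ℤ × ℤ, (if (m : ℤ) ∣ ((m : ℤ) * v.1 + j * v.2, v.2).1 -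
        j * ((m : ℤ) * v.1 + j * v.2, v.2).2 then F ((m : ℤ) * v.1 + j * v.2, v.2) else 0) =
        1 / Real.sqrt m * (Vk (qd (m * Q.1) (Q.2.1 + 2 * Q.1 * j) D v / Real.sqrt D) /
          Real.sqrt (qd (m * Q.1) (Q.2.1 + 2 * Q.1 * j) D v)) := by
      intro v
      have h1 : (m : ℤ) ∣ ((m : ℤ) * v.1 + j * v.2, v.2).1 -
        j * ((m : ℤ) * v.1 + j * v.2, v.2).2 := ⟨v.1, by simp⟩
      rw [if_pos h1, hF]
      simp only
      rw [hval, mul_div_mul_left _ _ hmR.ne', Real.sqrt_mul hmR.le]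
      have h2 : Real.sqrt m ≠ 0 := (Real.sqrt_pos.2 hmR).ne'
      rw [div_mul_div_comm, one_mul]
    have hsupp : ∀ x ∉ Set.range (fun v : ℤ × ℤ => (((m : ℤ) * v.1 + j * v.2, v.2) : ℤ × ℤ)),
        (if (m : ℤ) ∣ x.1 - j * x.2 then F x else 0) = 0 := by
      intro x hx
      refine if_neg fun h => hx ?_
      obtain ⟨t, ht⟩ := h
      exact ⟨(t, x.2), by ext <;> simp <;> linarith⟩
    have hs := (hZTH (m * Q.1) (Q.2.1 + 2 * Q.1 * j) D (mul_pos hmR hAR) hDR).1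
    constructor
    · rw [← hinj.summable_iff hsupp]
      have h3 := hs.mul_left (1 / Real.sqrt m)
      refine h3.congr fun v => ?_
      exact (hcomp v).symm
    · rw [← hinj.tsum_eq (f := fun x : ℤ × ℤ => if (m : ℤ) ∣ x.1 - j * x.2 then F x else 0)]
      · unfold zf
        rw [← tsum_mul_left]
        exact tsum_congr fun v => hcomp v
      · intro x hx
        by_contra hn
        exact hx (hsupp x hn)
  constructor
  · refine (summable_sum (s := R) fun j hj => (hkey j hj).1).congr fun v => ?_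
    exact (hterm v).symm
  · rw [tsum_congr hterm, Summable.tsum_finsetSum fun j hj => (hkey j hj).1, Finset.mul_sum]
    rw [hR]
    rw [hR] at hkey
    exact Finset.sum_congr rfl fun j hj => (hkey j hj).2

end Pool.Agent.H56.CF.PZF
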